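import Pool.Agent.X333.MS.Conn
import Pool.Agent.TH710.ND.Sp

/-!
MP_1dc56d_ag, Q1 and Q2: rationality and unirationality of the components of projective varieties
given by nested sums of high powers of monomials.

A *nested sum* (`Pool.Agent.TH710.ND.NestedIn IsMono s N h`) is a form `F = ∑ c_i g_i ^ e` with at
most `s` summands and `e ≥ N`, where the `g_i` are monomials, or sums of at most `s` such terms
`c g ^ e'`, `e' ≥ N`, of the next level, and so on, with at most `h + 1` levels; inside one form the
exponents and the numbers of summands are the same for all sums of one level. For example
`(x ^ a y ^ b + z ^ c) ^ N + (u ^ a v ^ b + x ^ c) ^ N + ...`.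

Over an algebraically closed field `k` of characteristic zero, for instance the field of algebraic
numbers, a component `V` of a variety given by such forms is rational if and only if it is
unirational, and if and only if it is the closure of an orbit of a torus of diagonal matrices. The
last property can be decided by an algorithm: it says that the prime ideal of `V` is generated by
forms with at most two terms (a standard fact, which is not formalized), and this can be read off
from a reduced Groebner basis. So rationality and unirationality can be decided for these varieties,
and both properties agree.

The theorem is a theorem of the starting library (`Pool.Agent.X333.MS.proj_tfae`) which was handed in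
for tensor differentials and rational connectedness only (MP_4329d7_ag.NestedMonomialTensors).
Harvest: helper762.
-/

set_option autoImplicit false

open Pool.Agent.W602.GT Pool.Agent.TH710.ND Pool.Agent.TH710.WH Pool.Agent.X333.MS

namespace Pool.Agent.Results.MP_1dc56d_ag.NestedMonomialRationality

/-- Let `k` be an algebraically closed field of characteristic zero, for instance the field of
algebraic numbers, and let `V` be an irreducible component, of dimension `w`, of a projective variety
in `P^n` over `k` given by forms which are nested sums of powers of monomials: at most `h + 1`
levels, at most `s` summands at each of them, all exponents at least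
`N ≥ (n + 1) (h + 1) (2 s + 1) ^ 5`. Let `K` be its function field and `y` its generic point.

The following are equivalent: `V` is rational; `V` is unirational; `V` is rationally connected; `V`
is special; `V` is the closure of an orbit of a torus of diagonal matrices. -/
theorem result {k : Type} [Field k] [IsAlgClosed k] [CharZero k] {n : ℕ} (hn : 1 ≤ n) {ι : Type}
    {F : ι → MvPolynomial (Fin (n + 1)) k} {s N h : ℕ}
    (hF : ∀ e, IsForm (F e) ∧ NestedIn IsMono s N h (F e))
    (hN : (n + 1) * ((h + 1) * (2 * s + 1) ^ 5) ≤ N) {K : Type} [Field K] [Algebra k K] {w : ℕ}
    {y : Fin (n + 1) → K} (hy : SubVarU ∅ F K w y) (hcomp : IsComponentU ∅ F y) :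
    [PurelyTranscendental k K, Unirational k y, RationallyConnected k y,
      Special k K w (fun _ => False), TorusOrbit k w y].TFAE := by
  have hM := proj_tfae hn hF (bnd_le hN).1 hy hcomp
  tfae_have 1 ↔ 5 := hM.out 1 0
  tfae_have 2 ↔ 5 := hM.out 2 0
  tfae_have 3 ↔ 5 := hM.out 3 0
  tfae_have 4 ↔ 5 := hM.out 4 0
  tfae_finish

end Pool.Agent.Results.MP_1dc56d_ag.NestedMonomialRationality
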